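import Pool.Agent.Helper92.SGE.Goals

/-!
# Project SG (MP_a41896_nt), packet SGE-CVAL: absolute values of algebraic integers
-/

set_option autoImplicit false

namespace Pool.Agent.Helper31.SGE

open Height Height.AdmissibleAbsValues NumberField
open Pool.Agent.Helper29.BL

theorem norm_le_house {K : Type} [Field K] [NumberField K] (φ : K →+* ℂ) (x : K) :
    ‖φ x‖ ≤ house x := by
  have h := norm_le_pi_norm (canonicalEmbedding K x) φ
  exact h

theorem cval : Pool.Agent.Helper92.SGE.CVAL := by
  intro K _ _ x A hA hx hh v hv
  rcases hv with hv | hv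
  · obtain ⟨φ, hφ⟩ : IsInfinitePlace v := mem_multisetInfinitePlace.1 hv
    have hna : ¬ IsNonarchimedean v := by
      intro h
      have h1 := h 1 1
      rw [map_one, max_self, ← hφ, place_apply, map_add, map_one] at h1
      norm_num at h1
    have hc : cst v (Real.exp A) = Real.exp A := by
      unfold cst
      exact if_neg hna
    rw [hc, ← hφ, place_apply]
    exact (norm_le_house φ x).trans hh
  · have hna : IsNonarchimedean v := isNonarchimedean v hv
    have hc : cst v (Real.exp A) = 1 := by
      unfold cst
      exact if_pos hna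
    rw [hc]
    obtain ⟨w, hw⟩ : IsFinitePlace v := hv
    rw [← hw, place_apply]
    exact FinitePlace.norm_le_one (K := K) (v := w) (⟨x, hx⟩ : 𝓞 K)

end Pool.Agent.Helper31.SGE
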